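import Mathlib
import Pool.Agent.W893.SY.Defs

/-! SY-UP: symmetrisation of a circuit by copies. -/

set_option autoImplicit false

namespace Pool.Agent.W366.SYUp

open Finset Pool.Agent.W893.SY

theorem val_inl {I R : Type} {s : ℕ} (C : Net I R s) (x : I → R) {g : Fin s} {i : I}
    (h : C.gate g = Sum.inl i) : C.val x g = x i := by
  rw [Net.val]
  split
  · rename_i j hj
    rw [h] at hj
    cases hj
    rfl
  · rename_i w f hj
    rw [h] at hj
    cases hj

theorem val_inr {I R : Type} {s : ℕ} (C : Net I R s) (x : I → R) {g : Fin s}
    {w : Multiset (ℕ × Fin s)} {f : Multiset (ℕ × R) → R}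
    (h : C.gate g = Sum.inr (w, f)) :
    C.val x g = f (w.map fun p => (p.1, C.val x p.2)) := by
  rw [Net.val]
  split
  · rename_i j hj
    rw [h] at hj
    cases hj
  · rename_i w' f' hj
    rw [h] at hj
    cases hj
    congr 1
    exact Multiset.attach_map_val' w (fun p => (p.1, C.val x p.2))

/-- numbering of the gates -/
noncomputable def E (G : Type) [Fintype G] (s : ℕ) :
    Option (G × Fin s) ≃ Fin (Fintype.card G * s + 1) :=
  (Equiv.optionCongr ((Equiv.prodCongr (Fintype.equivFin G) (Equiv.refl _)).trans
    finProdFinEquiv)).trans finSuccEquivLast.symm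

theorem E_none (G : Type) [Fintype G] (s : ℕ) : E G s none = Fin.last _ := by
  simp [E]

theorem E_some (G : Type) [Fintype G] (s : ℕ) (a : G) (g : Fin s) :
    E G s (some (a, g)) = Fin.castSucc (finProdFinEquiv (Fintype.equivFin G a, g)) := by
  simp [E]

theorem E_lt (G : Type) [Fintype G] (s : ℕ) (a : G) {g h : Fin s} (hgh : h < g) :
    E G s (some (a, h)) < E G s (some (a, g)) := by
  rw [E_some, E_some, Fin.castSucc_lt_castSucc_iff, Fin.lt_def]
  simp only [finProdFinEquiv_apply_val]
  exact Nat.add_lt_add_right hgh _

variable {I G : Type} [Group G] [Fintype G]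

/-- the gates -/
noncomputable def gt (act : G → I → I) {s : ℕ} (C : Net I Bool s) :
    Option (G × Fin s) → I ⊕ (Multiset (ℕ × Fin (Fintype.card G * s + 1)) ×
      (Multiset (ℕ × Bool) → Bool))
  | none => Sum.inr (univ.val.map (fun a : G => (0, E G s (some (a, C.out)))), orFn)
  | some (a, g) => Sum.map (act a) (Prod.map (Multiset.map (Prod.map id
      (fun h => E G s (some (a, h))))) id) (C.gate g)

/-- the circuit -/
noncomputable def up (act : G → I → I) {s : ℕ} (C : Net I Bool s) :
    Net I Bool (Fintype.card G * s + 1) where
  gate q := gt act C ((E G s).symm q)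
  out := E G s none
  acyclic := by
    intro q w f h p hp
    obtain ⟨o, rfl⟩ := (E G s).surjective q
    rw [Equiv.symm_apply_apply] at h
    rcases o with _ | ⟨a, g⟩
    · simp only [gt, Sum.inr.injEq, Prod.mk.injEq] at h
      rw [← h.1, Multiset.mem_map] at hp
      obtain ⟨a, -, rfl⟩ := hp
      rw [E_none, E_some]
      exact Fin.castSucc_lt_last _
    · simp only [gt] at h
      rcases hg : C.gate g with i | ⟨w0, f0⟩
      · rw [hg] at h
        cases h
      · rw [hg, Sum.map_inr, Prod.map_apply] at h
        simp only [Sum.inr.injEq, Prod.mk.injEq] at h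
        rw [← h.1, Multiset.mem_map] at hp
        obtain ⟨p0, hp0, rfl⟩ := hp
        exact E_lt G s a (C.acyclic g w0 f0 hg p0 hp0)

theorem up_gate (act : G → I → I) {s : ℕ} (C : Net I Bool s) (o : Option (G × Fin s)) :
    (up act C).gate (E G s o) = gt act C o := by
  show gt act C ((E G s).symm (E G s o)) = _
  rw [Equiv.symm_apply_apply]

theorem up_val (act : G → I → I) {s : ℕ} (C : Net I Bool s) (x : I → Bool) (a : G) (g : Fin s) :
    (up act C).val x (E G s (some (a, g))) = C.val (x ∘ act a) g := by
  induction g using WellFoundedLT.induction with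
  | ind g ih =>
    rcases hg : C.gate g with i | ⟨w, f⟩
    · rw [val_inl C _ hg, val_inl (up act C) x (i := act a i)]
      · rfl
      · rw [up_gate, gt, hg, Sum.map_inl]
    · rw [val_inr C _ hg, val_inr (up act C) x (w := w.map (Prod.map id
        (fun h => E G s (some (a, h))))) (f := f)]
      · rw [Multiset.map_map]
        congr 1
        refine Multiset.map_congr rfl fun p hp => ?_
        show (p.1, (up act C).val x (E G s (some (a, p.2)))) = _
        rw [ih p.2 (C.acyclic g w f hg p hp)]
      · rw [up_gate, gt, hg, Sum.map_inr, Prod.map_apply, id]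

theorem main : Pool.Agent.W893.SY.S_up := by
  classical
  intro I G _ _ act s C _ hmul hAO
  refine ⟨up act C, ?_, ?_, ?_⟩
  · intro q w f h
    obtain ⟨o, rfl⟩ := (E G s).surjective q
    rw [up_gate] at h
    rcases o with _ | ⟨a, g⟩
    · simp only [gt, Sum.inr.injEq, Prod.mk.injEq] at h
      exact Or.inr h.2.symm
    · simp only [gt] at h
      rcases hg : C.gate g with i | ⟨w0, f0⟩
      · rw [hg] at h
        cases h
      · rw [hg, Sum.map_inr, Prod.map_apply] at h
        simp only [Sum.inr.injEq, Prod.mk.injEq] at h
        have := hAO g w0 f0 hg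
        rw [← h.2]
        exact this
  · intro b
    let β : Equiv.Perm (Option (G × Fin s)) :=
      Equiv.optionCongr (Equiv.prodCongr (Equiv.mulLeft b) (Equiv.refl _))
    let α : Equiv.Perm (Fin (Fintype.card G * s + 1)) := (E G s).symm.trans (β.trans (E G s))
    have hα : ∀ o, α (E G s o) = E G s (β o) := by
      intro o
      show E G s (β ((E G s).symm (E G s o))) = _
      rw [Equiv.symm_apply_apply]
    have hβ0 : β none = none := rfl
    have hβ1 : ∀ a g, β (some (a, g)) = some (b * a, g) := fun a g => rfl
    refine ⟨α, ?_, ?_⟩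
    · intro q
      obtain ⟨o, rfl⟩ := (E G s).surjective q
      rw [hα, up_gate, up_gate]
      rcases o with _ | ⟨a, g⟩
      · rw [hβ0]
        simp only [gt]
        rw [Sum.map_inr, Prod.map_apply, id, Multiset.map_map]
        congr 2
        have h1 : (univ : Finset G).val.map (fun a => b * a) = (univ : Finset G).val := by
          have := Multiset.map_univ_val_equiv (Equiv.mulLeft b)
          exact this
        conv_lhs => rw [← h1, Multiset.map_map]
        refine Multiset.map_congr rfl fun a _ => ?_
        show (0, E G s (some (b * a, C.out))) = (0, α (E G s (some (a, C.out))))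
        rw [hα, hβ1]
      · rw [hβ1]
        simp only [gt]
        rcases hg : C.gate g with i | ⟨w0, f0⟩
        · rw [Sum.map_inl, Sum.map_inl, Sum.map_inl, hmul]
          rfl
        · rw [Sum.map_inr, Sum.map_inr, Sum.map_inr, Prod.map_apply, Prod.map_apply,
            Prod.map_apply, Multiset.map_map]
          congr 2
          refine Multiset.map_congr rfl fun p _ => ?_
          show (p.1, E G s (some (b * a, p.2))) = (p.1, α (E G s (some (a, p.2))))
          rw [hα, hβ1]
    · show α (E G s none) = E G s none
      rw [hα, hβ0]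
  · intro x
    have h1 : (up act C).val x (up act C).out = orFn ((univ.val.map
        (fun a : G => (0, E G s (some (a, C.out))))).map
          fun p => (p.1, (up act C).val x p.2)) := by
      refine val_inr (up act C) x ?_
      exact up_gate act C none
    rw [h1, orFn, decide_eq_true_iff, Multiset.map_map, Multiset.map_map, Multiset.mem_map]
    constructor
    · rintro ⟨a, -, ha⟩
      refine ⟨a, ?_⟩
      rw [← up_val]
      exact ha
    · rintro ⟨a, ha⟩
      refine ⟨a, Finset.mem_univ _, ?_⟩
      rw [← up_val] at ha
      exact ha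

end Pool.Agent.W366.SYUp
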